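import Mathlib
import Pool.Agent.HaymanWu.Final
import Pool.Agent.HaymanWu.LowerFinal

/-!
# The Hayman–Wu constant equals `π ^ 2`
-/

open Metric Set

namespace Pool.Agent.Results.MP_0a9e96_an.HaymanWuConstant

/-- The supremum, over all injective holomorphic functions `f` on the open unit disc and all lines
`{a + t b : t real}` (`b ≠ 0`), of the one-dimensional Hausdorff measure of the set of points of
the disc which `f` maps into the line, equals `π ^ 2`. -/
theorem result :
    (⨆ (f : ℂ → ℂ) (_ : DifferentiableOn ℂ f (ball (0:ℂ) 1)) (_ : InjOn f (ball (0:ℂ) 1))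
      (a : ℂ) (b : ℂ) (_ : b ≠ 0),
      MeasureTheory.Measure.hausdorffMeasure 1
        {z : ℂ | z ∈ ball (0:ℂ) 1 ∧ ∃ t : ℝ, f z = a + (t : ℂ) * b}) =
      ENNReal.ofReal (Real.pi ^ 2) := by
  have h := Pool.Agent.HaymanWu.isLeast_of_lower (by
    intro ε hε
    obtain ⟨f, h1, h2, h3⟩ := Pool.Agent.HaymanWu.Lower.hayman_wu_lower ε hε
    exact ⟨f, h1, h2, h3⟩)
  apply le_antisymm
  · refine iSup_le fun f => iSup_le fun hf => iSup_le fun hi => iSup_le fun a => iSup_le fun b =>
      iSup_le fun hb => ?_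
    exact h.1 f hf hi a b hb
  · apply h.2
    intro f hf hi a b hb
    refine le_trans ?_ (le_iSup _ f)
    refine le_trans ?_ (le_iSup _ hf)
    refine le_trans ?_ (le_iSup _ hi)
    refine le_trans ?_ (le_iSup _ a)
    refine le_trans ?_ (le_iSup _ b)
    exact le_iSup (fun (_ : b ≠ 0) => MeasureTheory.Measure.hausdorffMeasure 1
      {z : ℂ | z ∈ ball (0:ℂ) 1 ∧ ∃ t : ℝ, f z = a + (t : ℂ) * b}) hb

end Pool.Agent.Results.MP_0a9e96_an.HaymanWuConstant
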